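import Pool.Agent.H49.LAN.Stmts

/-! # LAN, module CNJ: complex conjugation -/

set_option autoImplicit false

namespace LAN

theorem cnj : CNJStmt := by
  intro N L _ _ _ hcyc
  have hζ := IsCyclotomicExtension.zeta_spec N ℚ L
  have hirr : Irreducible (Polynomial.cyclotomic N ℚ) :=
    Polynomial.cyclotomic.irreducible_rat (NeZero.pos _)
  let τ : L ≃ₐ[ℚ] L := IsCyclotomicExtension.fromZetaAut hζ.inv hirr
  have hτ : τ (IsCyclotomicExtension.zeta N ℚ L) = (IsCyclotomicExtension.zeta N ℚ L)⁻¹ :=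
    IsCyclotomicExtension.fromZetaAut_spec hζ.inv hirr
  refine ⟨τ, fun φ x => ?_⟩
  have key : ((φ.comp (τ : L ≃ₐ[ℚ] L).toAlgHom.toRingHom).toRatAlgHom : L →ₐ[ℚ] ℂ) =
      (((starRingEnd ℂ).comp φ).toRatAlgHom : L →ₐ[ℚ] ℂ) := by
    apply (hζ.powerBasis ℚ).algHom_ext
    rw [IsPrimitiveRoot.powerBasis_gen]
    show φ (τ (IsCyclotomicExtension.zeta N ℚ L)) =
      (starRingEnd ℂ) (φ (IsCyclotomicExtension.zeta N ℚ L))
    rw [hτ, map_inv₀]
    have h1 : (φ (IsCyclotomicExtension.zeta N ℚ L)) ^ N = 1 := by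
      rw [← map_pow, hζ.pow_eq_one, map_one]
    have h2 : ‖φ (IsCyclotomicExtension.zeta N ℚ L)‖ = 1 :=
      Complex.norm_eq_one_of_pow_eq_one h1 (NeZero.ne N)
    exact Complex.inv_eq_conj h2
  exact congrArg (fun f : L →ₐ[ℚ] ℂ => f x) key

end LAN
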