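import Pool.Agent.H49.LAN.Stmts

/-! # LAN, module DIR: Dirichlet's pigeonhole argument -/

set_option autoImplicit false

namespace LAN

theorem dir : DIRStmt := by
  intro p s _ hs S hS
  classical
  have hp : p.Prime := Fact.out
  have hq : NeZero (p ^ s) := ⟨pow_ne_zero _ hp.ne_zero⟩
  have hq0 : 0 < p ^ s := NeZero.pos _
  let f : ℕ → (S → Fin 4) := fun i x =>
    ⟨4 * ((i : ZMod (p ^ s)) * x.1).val / p ^ s, by
      rw [Nat.div_lt_iff_lt_mul hq0]
      have := ZMod.val_lt ((i : ZMod (p ^ s)) * x.1)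
      omega⟩
  have hcard : Fintype.card (S → Fin 4) = 4 ^ S.card := by
    rw [Fintype.card_fun, Fintype.card_fin, Fintype.card_coe]
  obtain ⟨i, hi, j, hj, hij, hf⟩ := Finset.exists_ne_map_eq_of_card_lt_of_maps_to
    (s := Finset.range (4 ^ S.card + 1)) (t := (Finset.univ : Finset (S → Fin 4)))
    (by rw [Finset.card_univ, hcard, Finset.card_range]; omega)
    (f := f) (fun _ _ => Finset.mem_univ _)
  wlog hlt : i < j generalizing i j
  · exact this j hj i hi hij.symm hf.symm (by omega)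
  rw [Finset.mem_range] at hi hj
  have hcop : Nat.Coprime (j - i) (p ^ s) := by
    apply Nat.Coprime.pow_right
    apply Nat.Coprime.symm
    rw [hp.coprime_iff_not_dvd]
    intro h
    have := Nat.le_of_dvd (by omega) h
    omega
  refine ⟨ZMod.unitOfCoprime (j - i) hcop, fun x hx => ?_⟩
  rw [ZMod.coe_unitOfCoprime]
  have h1 := congrArg Fin.val (congrFun hf ⟨x, hx⟩)
  simp only [f] at h1
  obtain ⟨a, ha⟩ : ∃ a, a = ((i : ZMod (p ^ s)) * x).val := ⟨_, rfl⟩
  obtain ⟨b, hb⟩ : ∃ b, b = ((j : ZMod (p ^ s)) * x).val := ⟨_, rfl⟩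
  rw [← ha, ← hb] at h1
  have h2 := Nat.div_add_mod (4 * a) (p ^ s)
  have h3 := Nat.div_add_mod (4 * b) (p ^ s)
  have h4 := Nat.mod_lt (4 * a) hq0
  have h5 := Nat.mod_lt (4 * b) hq0
  rw [h1] at h2
  generalize p ^ s * (4 * b / p ^ s) = Q at h2 h3
  generalize 4 * a % p ^ s = r1 at h2 h4
  generalize 4 * b % p ^ s = r2 at h3 h5
  have e : ((((j - i : ℕ) : ZMod (p ^ s)) * x).valMinAbs) = (b : ℤ) - a := by
    rw [ZMod.valMinAbs_spec]
    constructor
    · push_cast
      rw [Nat.cast_sub hlt.le, sub_mul, ha, hb, ZMod.natCast_zmod_val, ZMod.natCast_zmod_val]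
    · constructor <;> omega
  rw [e]
  omega

end LAN
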