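import Pool.Agent.H83.LAN.REP

/-! # LAN, module DIV -/

set_option autoImplicit false

namespace LAN

open GAL Finset NumberField

namespace DIV

/-- an ideal which is a product of prime ideals fixed by the automorphism is fixed -/
theorem map_prod {R : Type} [CommRing R] [IsDedekindDomain R] (σ : R ≃+* R)
    (S : Multiset (Ideal R)) (h : ∀ P ∈ S, P.map (σ : R →+* R) = P) :
    S.prod.map (σ : R →+* R) = S.prod := by
  induction S using Multiset.induction with
  | empty => simp [Ideal.one_eq_top, Ideal.map_top]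
  | cons P S ih =>
    rw [Multiset.prod_cons, Ideal.map_mul, h P (Multiset.mem_cons_self P S),
      ih fun Q hQ => h Q (Multiset.mem_cons_of_mem hQ)]

end DIV

theorem div : DIVStmt := by
  intro p s w _ L _ _ z hC σ hσ x y c a hx hy hc hxy
  classical
  have hp : p.Prime := Fact.out
  have hq : NeZero (p ^ s) := ⟨pow_ne_zero _ hp.ne_zero⟩
  have hz := hC.hz
  have hz1 : z ^ (p ^ s) = 1 := hz.pow_eq_one
  have hzi : IsIntegral ℤ z := IsIntegral.of_pow (NeZero.pos (p ^ s))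
    (by rw [hz1]; exact isIntegral_one)
  obtain ⟨t, ht⟩ := ga2 p s w L z hC σ
  -- the automorphism of the ring of integers
  let σ' : 𝓞 L ≃+* 𝓞 L := RingOfIntegers.mapRingEquiv σ.toRingEquiv
  have hσ' : ∀ v : 𝓞 L, ((σ' v : 𝓞 L) : L) = σ (v : L) := fun v => rfl
  let zo : 𝓞 L := ⟨z, hzi⟩
  -- (i)
  have h1 : ∀ v : 𝓞 L, zo - 1 ∣ σ' v - v := by
    intro v
    obtain ⟨d, hd, hv⟩ := rep p s w L z hC (v : L) v.2
    let d' : ZMod (p ^ s) → 𝓞 L := fun k => ⟨d k, (hd k).1⟩
    have e1 : v = ∑ k, d' k * zo ^ k.val := by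
      apply RingOfIntegers.ext
      show (v : L) = algebraMap (𝓞 L) L (∑ k, d' k * zo ^ k.val)
      rw [hv, map_sum]
      rfl
    have e2 : σ' v = ∑ k, d' k * zo ^ ((t : ZMod (p ^ s)) * k).val := by
      apply RingOfIntegers.ext
      show σ (v : L) = algebraMap (𝓞 L) L (∑ k, d' k * zo ^ ((t : ZMod (p ^ s)) * k).val)
      rw [hv, map_sum, map_sum]
      apply sum_congr rfl
      intro k _
      rw [map_mul, (hd k).2 σ hσ, ht k]
      rfl
    rw [e2, e1, ← sum_sub_distrib]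
    apply Finset.dvd_sum
    intro k _
    rw [← mul_sub]
    apply Dvd.dvd.mul_left
    have h2 : ∀ n : ℕ, zo - 1 ∣ zo ^ n - 1 := fun n => by
      have := sub_dvd_pow_sub_pow zo 1 n
      rwa [one_pow] at this
    have h3 := dvd_sub (h2 ((t : ZMod (p ^ s)) * k).val) (h2 k.val)
    rwa [sub_sub_sub_cancel_right] at h3
  -- (ii)
  have h2 : ∀ P : Ideal (𝓞 L), P.IsPrime → ((p : ℕ) : 𝓞 L) ∈ P → P.map (σ' : 𝓞 L →+* 𝓞 L) = P := by
    intro P hP hpP
    have hzP : zo - 1 ∈ P := by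
      have hch : CharP (𝓞 L ⧸ P) p := by
        rw [CharP.charP_iff_prime_eq_zero hp]
        have : (Ideal.Quotient.mk P) ((p : ℕ) : 𝓞 L) = 0 := Ideal.Quotient.eq_zero_iff_mem.2 hpP
        rwa [map_natCast] at this
      have e1 : ((Ideal.Quotient.mk P) zo - 1) ^ (p ^ s) = 0 := by
        rw [sub_pow_char_pow, ← map_pow]
        have : zo ^ (p ^ s) = 1 := by
          apply RingOfIntegers.ext
          exact hz1
        rw [this]
        simp
      have e2 : (Ideal.Quotient.mk P) (zo - 1) = 0 := by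
        rw [map_sub, map_one]
        exact pow_eq_zero_iff (NeZero.ne _) |>.1 e1
      exact Ideal.Quotient.eq_zero_iff_mem.1 e2
    have h3 : ∀ v ∈ P, σ' v ∈ P := by
      intro v hv
      obtain ⟨b, hb⟩ := h1 v
      have : σ' v = v + (zo - 1) * b := by rw [← hb]; ring
      rw [this]
      exact P.add_mem hv (P.mul_mem_right b hzP)
    have h4 : P.map (σ' : 𝓞 L →+* 𝓞 L) ≤ P := by
      rw [Ideal.map_le_iff_le_comap]
      intro v hv
      exact h3 v hv
    apply le_antisymm h4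
    intro v hv
    have h5 : σ'.symm v ∈ P := by
      obtain ⟨b, hb⟩ := h1 (σ'.symm v)
      rw [RingEquiv.apply_symm_apply] at hb
      have : σ'.symm v = v - (zo - 1) * b := by rw [← hb]; ring
      rw [this]
      exact P.sub_mem hv (P.mul_mem_right b hzP)
    have h6 := Ideal.mem_map_of_mem (σ' : 𝓞 L →+* 𝓞 L) h5
    have h7 : (σ' : 𝓞 L →+* 𝓞 L) (σ'.symm v) = v := σ'.apply_symm_apply v
    rwa [h7] at h6
  -- (iii)
  let xo : 𝓞 L := ⟨x, hx⟩
  let yo : 𝓞 L := ⟨y, hy⟩
  let co : 𝓞 L := ⟨c, hc⟩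
  have hxyo : xo * yo = ((p : ℕ) : 𝓞 L) ^ a * co := by
    apply RingOfIntegers.ext
    show x * y = algebraMap (𝓞 L) L (((p : ℕ) : 𝓞 L) ^ a * co)
    rw [hxy, map_mul, map_pow, map_natCast]
    rfl
  let J : Ideal (𝓞 L) := Ideal.span {xo, ((p : ℕ) : 𝓞 L) ^ a}
  have hp0 : ((p : ℕ) : 𝓞 L) ≠ 0 := by
    exact_mod_cast hp.ne_zero
  have hJ0 : J ≠ ⊥ := by
    intro h
    have : ((p : ℕ) : 𝓞 L) ^ a ∈ J := Ideal.subset_span (by simp)
    rw [h, Ideal.mem_bot] at this
    exact pow_ne_zero _ hp0 this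
  have hJ : J.map (σ' : 𝓞 L →+* 𝓞 L) = J := by
    rw [← Ideal.prod_normalizedFactors_eq_self hJ0]
    apply DIV.map_prod
    intro P hP
    have hP1 := UniqueFactorizationMonoid.prime_of_normalized_factor P hP
    have hP2 : P.IsPrime := Ideal.isPrime_of_prime hP1
    have hP3 : J ≤ P := Ideal.dvd_iff_le.1 (UniqueFactorizationMonoid.dvd_of_mem_normalizedFactors hP)
    apply h2 P hP2
    exact hP2.mem_of_pow_mem a (hP3 (Ideal.subset_span (by simp)))
  have hmem : σ' xo ∈ J := by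
    rw [← hJ]
    exact Ideal.mem_map_of_mem (σ' : 𝓞 L →+* 𝓞 L) (Ideal.subset_span (by simp))
  obtain ⟨b, d, hbd⟩ := Ideal.mem_span_pair.1 hmem
  have hfin : σ x * y = (p : L) ^ a * ((b * co + d * yo : 𝓞 L) : L) := by
    have e1 : σ' xo * yo = ((p : ℕ) : 𝓞 L) ^ a * (b * co + d * yo) := by
      rw [← hbd]
      linear_combination b * hxyo
    have e2 := congrArg (fun v : 𝓞 L => (v : L)) e1
    simp only [map_mul, map_pow, map_natCast] at e2
    exact e2
  rw [hfin, mul_div_cancel_left₀]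
  · exact (b * co + d * yo : 𝓞 L).2
  · apply pow_ne_zero
    exact_mod_cast hp.ne_zero

end LAN
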