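import Pool.Agent.H49.LAN.Stmts

/-! # LAN, modules GAL and GA2 -/

set_option autoImplicit false

namespace LAN

namespace GAL

variable {L : Type} [Field L] {q : ℕ} [NeZero q] {z : L}

omit [NeZero q] in
theorem Z_nat (hz : z ^ q = 1) (n : ℕ) : Z z ((n : ℕ) : ZMod q) = z ^ n := by
  unfold Z
  rw [ZMod.val_natCast]
  exact (pow_eq_pow_mod n hz).symm

omit [NeZero q] in
theorem Z_zero : Z z (0 : ZMod q) = 1 := by
  unfold Z
  rw [ZMod.val_zero, pow_zero]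

theorem Z_add (hz : z ^ q = 1) (x y : ZMod q) : Z z (x + y) = Z z x * Z z y := by
  have h := Z_nat hz (x.val + y.val)
  rw [Nat.cast_add, ZMod.natCast_zmod_val, ZMod.natCast_zmod_val] at h
  rw [h, pow_add]
  rfl

theorem Z_mul_nat (hz : z ^ q = 1) (i : ℕ) (x : ZMod q) : Z z ((i : ZMod q) * x) = (Z z x) ^ i := by
  have h := Z_nat hz (i * x.val)
  rw [Nat.cast_mul, ZMod.natCast_zmod_val] at h
  rw [h, mul_comm, pow_mul]
  rfl

omit [NeZero q] in
theorem Z_pow (hz : z ^ q = 1) (x : ZMod q) : (Z z x) ^ q = 1 := by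
  unfold Z
  rw [← pow_mul, mul_comm, pow_mul, hz, one_pow]

theorem Z_ne (hz : z ^ q = 1) (x : ZMod q) : Z z x ≠ 0 := by
  intro h
  have := Z_pow hz x
  rw [h, zero_pow (NeZero.ne q)] at this
  exact zero_ne_one this

theorem exists_Z (hz : IsPrimitiveRoot z q) (y : L) (hy : y ^ q = 1) : ∃ x : ZMod q, y = Z z x := by
  obtain ⟨i, -, hi⟩ := hz.eq_pow_of_pow_eq_one hy
  exact ⟨(i : ZMod q), by rw [Z_nat hz.pow_eq_one, hi]⟩

theorem Z_inj (hz : IsPrimitiveRoot z q) (x y : ZMod q) (h : Z z x = Z z y) : x = y := by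
  have := hz.pow_inj (ZMod.val_lt x) (ZMod.val_lt y) h
  exact ZMod.val_injective q this

end GAL

open GAL

theorem ga2 : GA2Stmt := by
  intro p s w _ L _ _ z hC σ
  have : NeZero (p ^ s) := ⟨pow_ne_zero _ (Fact.out : p.Prime).ne_zero⟩
  have hz := hC.hz
  have h1 : IsPrimitiveRoot (σ z) (p ^ s) := hz.map_of_injective σ.injective
  obtain ⟨i, -, hi, hi2⟩ := hz.isPrimitiveRoot_iff.1 h1
  refine ⟨ZMod.unitOfCoprime i hi, fun x => ?_⟩
  rw [ZMod.coe_unitOfCoprime, Z_mul_nat hz.pow_eq_one]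
  unfold Z
  rw [map_pow, ← hi2, ← pow_mul, ← pow_mul, mul_comm]

theorem gal : GALStmt := by
  intro p s w _ L _ _ z hC t
  have hq : NeZero (p ^ s) := ⟨pow_ne_zero _ (Fact.out : p.Prime).ne_zero⟩
  have hw : NeZero w := ⟨by have := hC.hw; omega⟩
  have hN : NeZero (p ^ s * w) := ⟨mul_ne_zero hq.ne hw.ne⟩
  have hz := hC.hz
  have := hC.cyc
  have hcop : Nat.Coprime (p ^ s) w := Nat.Coprime.pow_left s hC.cop
  obtain ⟨i, hi1, hi2⟩ := Nat.chineseRemainder hcop (t : ZMod (p ^ s)).val 1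
  have hi3 : Nat.Coprime i (p ^ s * w) := by
    apply Nat.Coprime.mul_right
    · have h1 := ZMod.val_coe_unit_coprime t
      unfold Nat.Coprime at h1 ⊢
      rw [hi1.gcd_eq, h1]
    · unfold Nat.Coprime
      rw [hi2.gcd_eq]
      simp
  have hζ := IsCyclotomicExtension.zeta_spec (p ^ s * w) ℚ L
  have hirr : Irreducible (Polynomial.cyclotomic (p ^ s * w) ℚ) :=
    Polynomial.cyclotomic.irreducible_rat (NeZero.pos _)
  let σ : L ≃ₐ[ℚ] L := IsCyclotomicExtension.fromZetaAut (hζ.pow_of_coprime i hi3) hirr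
  have hσ : σ (IsCyclotomicExtension.zeta (p ^ s * w) ℚ L) =
      IsCyclotomicExtension.zeta (p ^ s * w) ℚ L ^ i :=
    IsCyclotomicExtension.fromZetaAut_spec (hζ.pow_of_coprime i hi3) hirr
  have hσ2 : ∀ y : L, y ^ (p ^ s * w) = 1 → σ y = y ^ i := by
    intro y hy
    obtain ⟨j, -, hj⟩ := hζ.eq_pow_of_pow_eq_one hy
    rw [← hj, map_pow, hσ, ← pow_mul, ← pow_mul, mul_comm i j]
  refine ⟨σ, ?_, ?_⟩
  · intro y hy
    rw [hσ2 y (by rw [mul_comm, pow_mul, hy, one_pow])]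
    rw [pow_eq_pow_mod i hy, hi2, ← pow_eq_pow_mod 1 hy, pow_one]
  · intro x
    rw [hσ2 (Z z x) (by rw [pow_mul, Z_pow hz.pow_eq_one, one_pow]), ← Z_mul_nat hz.pow_eq_one]
    congr 2
    have h3 : ((i : ℕ) : ZMod (p ^ s)) = (((t : ZMod (p ^ s)).val : ℕ) : ZMod (p ^ s)) :=
      (ZMod.natCast_eq_natCast_iff _ _ _).2 hi1
    rw [h3, ZMod.natCast_zmod_val]

end LAN
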