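import Pool.Agent.H49.LAN.Stmts

/-! # LAN, module NOR: normalisation by a translation -/

set_option autoImplicit false

namespace LAN

theorem nor : NORStmt := by
  intro p s _ W _ _ _ f n lam t g j ε hDS ht hε hper
  have hq : NeZero (p ^ s) := ⟨pow_ne_zero _ (Fact.out : p.Prime).ne_zero⟩
  obtain ⟨v, hv⟩ := ht
  obtain ⟨c, hc⟩ : ∃ c : ZMod (p ^ s), ((t : ZMod (p ^ s)) - 1) * c = j :=
    ⟨(↑v⁻¹ : ZMod (p ^ s)) * j, by rw [← hv, Units.mul_inv_cancel_left]⟩
  refine ⟨c, ⟨hε, fun u i y hy => ?_⟩, ⟨fun y h => ?_⟩, ?_⟩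
  · have h := hper u (i + t * c) y hy
    simp only at h ⊢
    have e1 : (↑t⁻¹ : ZMod (p ^ s)) * (i + t * c + y) = ↑t⁻¹ * (i + y) + c := by
      have : (↑t⁻¹ : ZMod (p ^ s)) * (i + t * c + y) = ↑t⁻¹ * (i + y) + (↑t⁻¹ * t) * c := by ring
      rw [this, Units.inv_mul, one_mul]
    have e2 : (↑t⁻¹ : ZMod (p ^ s)) * (i + t * c) = ↑t⁻¹ * i + c := by
      have : (↑t⁻¹ : ZMod (p ^ s)) * (i + t * c) = ↑t⁻¹ * i + (↑t⁻¹ * t) * c := by ring
      rw [this, Units.inv_mul, one_mul]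
    have e3 : i + t * c + y - j = i + y + c := by
      rw [← hc]; ring
    have e4 : i + t * c - j = i + c := by
      rw [← hc]; ring
    rw [e1, e2, e3, e4] at h
    exact h
  · rw [← hDS.ac y h, ← Equiv.sum_comp (Equiv.addRight c)
      (fun i => ∑ u, f (i + y) (u * h) * f i u)]
    apply Finset.sum_congr rfl
    intro i _
    apply Finset.sum_congr rfl
    intro u _
    simp only [Equiv.coe_addRight]
    rw [add_right_comm]
  · rw [← Equiv.sum_comp (Equiv.addRight c) (fun i => ∑ u, f i u)]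
    rfl

end LAN
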