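import Pool.Agent.H49.LAN.Stmts

/-! # LAN, module QIN: invariance outside the subgroup of order `p` -/

set_option autoImplicit false

namespace LAN

open Finset

namespace QIN

theorem solve (p s : ℕ) [Fact p.Prime] (hs : 1 ≤ s) (i y : ZMod (p ^ s))
    (hy : (p : ZMod (p ^ s)) * y = 0) (hi : (p : ZMod (p ^ s)) * i ≠ 0) :
    ∃ d : ZMod (p ^ s), (p : ZMod (p ^ s)) * d * i = y := by
  have hp : p.Prime := Fact.out
  have hq : NeZero (p ^ s) := ⟨pow_ne_zero _ hp.ne_zero⟩
  obtain ⟨a, ha⟩ : ∃ a : ℕ, (a : ZMod (p ^ s)) = i := ⟨i.val, ZMod.natCast_zmod_val i⟩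
  obtain ⟨b, hb⟩ : ∃ b : ℕ, (b : ZMod (p ^ s)) = y := ⟨y.val, ZMod.natCast_zmod_val y⟩
  have h1 : ¬ p ^ s ∣ p * a := by
    rw [← ZMod.natCast_eq_zero_iff]
    push_cast
    rw [ha]
    exact hi
  have h2 : p ^ s ∣ p * b := by
    rw [← ZMod.natCast_eq_zero_iff]
    push_cast
    rw [hb]
    exact hy
  obtain ⟨e, he, hg⟩ := (Nat.dvd_prime_pow hp).1 (Nat.gcd_dvd_right (p * a) (p ^ s))
  have he2 : e < s := by
    by_contra h
    have h3 : e = s := by omega
    apply h1
    rw [← h3, ← hg]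
    exact Nat.gcd_dvd_left _ _
  obtain ⟨b', hb'⟩ := h2
  have hb2 : b = p ^ (s - 1) * b' := by
    have h4 : p * b = p * (p ^ (s - 1) * b') := by
      rw [hb', ← mul_assoc, ← pow_succ']
      congr 2
      omega
    exact Nat.eq_of_mul_eq_mul_left hp.pos h4
  have hbez := Nat.gcd_eq_gcd_ab (p * a) (p ^ s)
  have h5 : ((p ^ e : ℕ) : ZMod (p ^ s)) =
      (p : ZMod (p ^ s)) * a * ((Nat.gcdA (p * a) (p ^ s) : ℤ) : ZMod (p ^ s)) := by
    have := congrArg (fun v : ℤ => (v : ZMod (p ^ s))) hbez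
    rw [hg] at this
    push_cast at this ⊢
    rw [this]
    have h6 : ((p : ZMod (p ^ s))) ^ s = 0 := by
      have := ZMod.natCast_self (p ^ s)
      push_cast at this
      exact this
    rw [h6]
    ring
  refine ⟨((Nat.gcdA (p * a) (p ^ s) : ℤ) : ZMod (p ^ s)) * ((p ^ (s - 1 - e) * b' : ℕ) :
    ZMod (p ^ s)), ?_⟩
  have h7 : p ^ (s - 1) = p ^ e * p ^ (s - 1 - e) := by
    rw [← pow_add]
    congr 1
    omega
  have h9 := Nat.cast_mul (α := ZMod (p ^ s)) (p ^ e) (p ^ (s - 1 - e) * b')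
  rw [h5] at h9
  rw [← hb, hb2, h7, mul_assoc (p ^ e), h9, ← ha]
  ring

end QIN

theorem qin : QINStmt := by
  intro p s _ W _ _ _ f t g ε hp2 hs ht hg hNS i y u hy hi
  have hp : p.Prime := Fact.out
  have hq : NeZero (p ^ s) := ⟨pow_ne_zero _ hp.ne_zero⟩
  -- iteration
  have hit : ∀ k : ℕ, ∀ u, Per p s (fun i => f ((↑(t ^ k)⁻¹ : ZMod (p ^ s)) * i) u -
      ε ^ k * f i (u * (g ^ k)⁻¹)) := by
    intro k
    induction k with
    | zero =>
      intro u i y _
      simp
    | succ k ih =>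
      intro u i y hy
      have e1 := hNS.per u ((↑(t ^ k)⁻¹ : ZMod (p ^ s)) * i) ((↑(t ^ k)⁻¹ : ZMod (p ^ s)) * y)
        (by rw [mul_left_comm, hy, mul_zero])
      have e2 := ih (u * g⁻¹) i y hy
      simp only at e1 e2 ⊢
      rw [← mul_add] at e1
      have e3 : (↑(t ^ (k + 1))⁻¹ : ZMod (p ^ s)) = ↑t⁻¹ * ↑(t ^ k)⁻¹ := by
        rw [← Units.val_mul]
        congr 1
        rw [pow_succ, mul_inv, mul_comm]
      have e4 : u * g⁻¹ * (g ^ k)⁻¹ = u * (g ^ (k + 1))⁻¹ := by
        rw [pow_succ, mul_inv, mul_assoc, mul_comm g⁻¹]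
      rw [e4] at e2
      rw [e3, mul_assoc, mul_assoc, pow_succ]
      linear_combination e1 + ε * e2
  -- the reduction modulo `p`
  have hdvd : p ∣ p ^ s := dvd_pow_self p (by omega)
  have hper : ∀ x : (ZMod (p ^ s))ˣ, ZMod.unitsMap hdvd x = 1 → ∀ u,
      Per p s (fun i => f ((x : ZMod (p ^ s)) * i) u - f i u) := by
    intro x hx u
    have h1 : x⁻¹ ∈ Submonoid.powers t := by
      rw [mem_powers_iff_mem_zpowers]
      exact ht _
    obtain ⟨k, hk⟩ := h1
    simp only at hk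
    have h2 : (ZMod.unitsMap hdvd t) ^ k = 1 := by
      rw [← map_pow, hk, map_inv, hx, inv_one]
    have h3 : orderOf (ZMod.unitsMap hdvd t) = p - 1 := by
      have h4 : ∀ x : (ZMod p)ˣ, x ∈ Subgroup.zpowers (ZMod.unitsMap hdvd t) := by
        intro x
        obtain ⟨x', rfl⟩ := ZMod.unitsMap_surjective hdvd x
        obtain ⟨m, hm⟩ := ht x'
        exact ⟨m, by simp only at hm ⊢; rw [← hm, map_zpow]⟩
      rw [orderOf_eq_card_of_forall_mem_zpowers h4, Nat.card_eq_fintype_card, ZMod.card_units]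
    have h5 : p - 1 ∣ k := by
      rw [← h3]
      exact orderOf_dvd_of_pow_eq_one h2
    obtain ⟨m, hm⟩ := h5
    have h6 : g ^ k = 1 := by rw [hm, pow_mul, hg, one_pow]
    have h7 : ε ^ k = 1 := by
      obtain ⟨l, hl⟩ := hp.odd_of_ne_two hp2
      have h8 : ε ^ 2 = 1 := by
        rcases hNS.e1 with h | h <;> rw [h] <;> norm_num
      rw [hm, show (p - 1) * m = 2 * (l * m) by rw [show p - 1 = 2 * l by omega]; ring, pow_mul,
        h8, one_pow]
    have h9 := hit k u
    rw [hk, inv_inv, h6, h7] at h9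
    simpa using h9
  obtain ⟨d, hd⟩ := QIN.solve p s hs i y hy hi
  -- the unit `1 + p d`
  have hnil : IsNilpotent ((p : ZMod (p ^ s)) * d) := by
    refine ⟨s, ?_⟩
    rw [mul_pow]
    have := ZMod.natCast_self (p ^ s)
    push_cast at this
    rw [this, zero_mul]
  obtain ⟨x, hx⟩ := hnil.isUnit_one_add
  have hx1 : ZMod.unitsMap hdvd x = 1 := by
    apply Units.ext
    rw [ZMod.unitsMap_val, hx]
    have h1 : (ZMod.castHom hdvd (ZMod p)) (1 + (p : ZMod (p ^ s)) * d) = 1 := by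
      rw [map_add, map_mul, map_one, map_natCast, ZMod.natCast_self, zero_mul, add_zero]
    exact h1
  have hxy : (x : ZMod (p ^ s)) * y = y := by
    rw [hx, add_mul, one_mul, mul_right_comm, hy, zero_mul, add_zero]
  have hxi : ∀ l : ℕ, (x : ZMod (p ^ s)) * (i + l * y) = i + ((l + 1 : ℕ) : ZMod (p ^ s)) * y := by
    intro l
    rw [mul_add, mul_left_comm, hxy, hx, add_mul, one_mul, hd]
    push_cast
    ring
  have hP : ∀ l : ℕ, f (i + ((l + 1 : ℕ) : ZMod (p ^ s)) * y) u - f (i + (l : ZMod (p ^ s)) * y) u =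
      f (i + y) u - f i u := by
    intro l
    have h1 := hper x hx1 u i ((l : ZMod (p ^ s)) * y) (by rw [mul_left_comm, hy, mul_zero])
    simp only at h1
    rw [hxi] at h1
    have h2 := hxi 0
    simp only [Nat.cast_zero, zero_mul, add_zero, zero_add, Nat.cast_one, one_mul] at h2
    rw [h2] at h1
    exact h1
  have hsum : ∀ m : ℕ, f (i + (m : ZMod (p ^ s)) * y) u - f i u = m * (f (i + y) u - f i u) := by
    intro m
    induction m with
    | zero => simp
    | succ m ih =>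
      have := hP m
      push_cast at this ⊢
      linear_combination ih + this
  have h1 := hsum p
  rw [hy, add_zero, sub_self] at h1
  have h2 : f (i + y) u - f i u = 0 := by
    rcases mul_eq_zero.1 h1.symm with h | h
    · exact absurd (by exact_mod_cast h) hp.ne_zero
    · exact h
  linarith

end LAN
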