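import Pool.Agent.H83.LAN.GAL

/-! # LAN, modules RUO and RU2: roots of unity in `ℚ(z)` -/

set_option autoImplicit false

namespace LAN

open GAL

namespace RUO

/-- the order of a root of unity in `ℚ(z)` divides the torsion order -/
theorem order_dvd {L : Type} [Field L] [NumberField L] {z : L} {q : ℕ} [NeZero q]
    (hz : IsPrimitiveRoot z q) (η : L) (hη : η ∈ IntermediateField.adjoin ℚ {z}) (hR : RtU η) :
    η ^ (if Even q then q else 2 * q) = 1 := by
  have hcyc : IsCyclotomicExtension {q} ℚ (IntermediateField.adjoin ℚ {z}) :=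
    hz.intermediateField_adjoin_isCyclotomicExtension ℚ
  obtain ⟨M, hM, hM1⟩ := hR
  let η' : IntermediateField.adjoin ℚ {z} := ⟨η, hη⟩
  have h1 : η' ^ M = 1 := by
    apply Subtype.ext
    exact hM1
  have h2 : 0 < orderOf η' := orderOf_pos_iff.2 (isOfFinOrder_iff_pow_eq_one.2 ⟨M, hM, h1⟩)
  have : NeZero (orderOf η') := ⟨h2.ne'⟩
  have h3 := NumberField.Units.dvd_torsionOrder_of_isPrimitiveRoot
    (IsPrimitiveRoot.orderOf η')
  rw [IsCyclotomicExtension.Rat.torsionOrder_eq (n := q)] at h3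
  have h4 := orderOf_dvd_iff_pow_eq_one.1 h3
  have h5 := congrArg (fun v : IntermediateField.adjoin ℚ {z} => (v : L)) h4
  exact h5

end RUO

theorem ru2 : RU2Stmt := by
  intro s L _ _ z hs hz η hη hR
  have h := RUO.order_dvd hz η hη hR
  rw [if_pos ((Nat.even_pow.2 ⟨even_two, by omega⟩))] at h
  exact exists_Z hz η h

theorem ruo : RUOStmt := by
  intro p s _ L _ _ z hp hs hz η hη hR
  have hpp : p.Prime := Fact.out
  have : NeZero (p ^ s) := ⟨pow_ne_zero _ hpp.ne_zero⟩
  have hodd : Odd (p ^ s) := (hpp.odd_of_ne_two hp).pow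
  have h := RUO.order_dvd hz η hη hR
  rw [if_neg (Nat.not_even_iff_odd.2 hodd), mul_comm, pow_mul] at h
  rcases sq_eq_one_iff.1 h with h1 | h1
  · obtain ⟨j, hj⟩ := exists_Z hz η h1
    exact ⟨j, Or.inl hj⟩
  · obtain ⟨j, hj⟩ := exists_Z hz (-η) (by rw [hodd.neg_pow, h1, neg_neg])
    exact ⟨j, Or.inr (by rw [← hj, neg_neg])⟩

end LAN
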