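import Pool.Agent.H49.LAN.Stmts

/-! # LAN, module SGN: the sign is `+` -/

set_option autoImplicit false

namespace LAN

open Finset

namespace SGN

theorem sum_cor {W : Type} [CommGroup W] [Fintype W] (K : W → ℤ) (x : W) :
    ∑ h : W, Cor K (h * x) = (∑ u, K u) ^ 2 := by
  unfold Cor
  rw [sum_comm, sq, sum_mul_sum, sum_comm]
  rw [sum_comm]
  apply sum_congr rfl
  intro u _
  rw [← Equiv.sum_comp (Equiv.mulLeft (u)) (fun v => K u * K v)]
  rw [← Equiv.sum_comp (Equiv.mulRight (x)) (fun h => K u * K (Equiv.mulLeft u h))]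
  apply sum_congr rfl
  intro h _
  simp only [Equiv.coe_mulLeft, Equiv.coe_mulRight]
  ring

theorem sum_alt (k : ℕ) : ∑ d ∈ range (2 * k), (-1 : ℤ) ^ d = 0 := by
  induction k with
  | zero => simp
  | succ k ih =>
    rw [show 2 * (k + 1) = 2 * k + 1 + 1 by ring, sum_range_succ, sum_range_succ, ih, pow_succ]
    ring

end SGN

theorem sgn (h1 : KCOStmt) (h2 : SQRStmt) : SGNStmt := by
  intro p s _ W _ _ _ f n lam B K τ g ε hp2 hn hDS hBS
  have hp : p.Prime := Fact.out
  rcases hBS.e1 with h | h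
  · exact h
  exfalso
  subst h
  -- `p κ² = n`
  have hκ : (p : ℤ) * (∑ u, K u) ^ 2 = n := by
    have h3 : ∑ h : W, ((p : ℤ) * Cor K h - ∑ d ∈ range (p - 1), (-1) ^ d * Cor K (h * g ^ d)) =
        ∑ h : W, (if h = 1 then n else 0) :=
      sum_congr rfl fun h _ => h1 p W B K τ g (-1) n hp2 hBS h
    rw [sum_sub_distrib, ← mul_sum, sum_comm] at h3
    have h4 : ∑ d ∈ range (p - 1), ∑ h : W, (-1 : ℤ) ^ d * Cor K (h * g ^ d) = 0 := by
      have h5 : ∀ d, ∑ h : W, (-1 : ℤ) ^ d * Cor K (h * g ^ d) = (-1) ^ d * (∑ u, K u) ^ 2 := by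
        intro d
        rw [← mul_sum, SGN.sum_cor]
      simp only [h5]
      rw [← sum_mul]
      obtain ⟨k, hk⟩ : ∃ k, p - 1 = 2 * k := by
        have := hp.odd_of_ne_two hp2
        obtain ⟨k, hk⟩ := this
        exact ⟨k, by omega⟩
      rw [hk, SGN.sum_alt, zero_mul]
    rw [h4, sub_zero] at h3
    have h6 := SGN.sum_cor K 1
    simp only [mul_one] at h6
    rw [h6] at h3
    rw [h3]
    simp
  have hκ0 : ∑ u, K u ≠ 0 := by
    intro h
    rw [h] at hκ
    simp at hκ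
    omega
  obtain ⟨u, -, hu⟩ := exists_ne_zero_of_sum_ne_zero hκ0
  -- the order of `g` is even
  have hord : Even (orderOf g) := by
    by_contra hodd
    rw [Nat.not_even_iff_odd] at hodd
    have r0 := hBS.rel 0 u
    have r1 := hBS.rel (orderOf g) u
    rw [pow_orderOf_eq_one, inv_one, mul_one, hodd.neg_one_pow] at r1
    simp only [pow_zero, inv_one, mul_one, one_mul] at r0
    have b0 := hBS.b01 0 u
    have b1 := hBS.b01 (↑(1 : (ZMod p)ˣ) : ZMod p) u
    have b2 := hBS.b01 (↑(τ ^ orderOf g)⁻¹ : ZMod p) u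
    omega
  have hW : 2 ∣ p ^ s * Fintype.card W := by
    apply Dvd.dvd.mul_left
    exact (even_iff_two_dvd.1 hord).trans orderOf_dvd_card
  obtain ⟨a, ha⟩ := h2 p s W f n lam hDS hW
  -- `a² = p κ²`
  rw [ha] at hκ
  have hpz : Prime (p : ℤ) := Nat.prime_iff_prime_int.1 hp
  have h7 := congrArg (emultiplicity (p : ℤ)) hκ
  have ha0 : a ≠ 0 := by
    rintro rfl
    rw [ha] at hn
    simp at hn
  have h8 := congrArg (padicValInt p) hκ
  rw [padicValInt.mul (by exact_mod_cast hp.ne_zero) (pow_ne_zero _ hκ0), sq, sq,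
    padicValInt.mul hκ0 hκ0, padicValInt.mul ha0 ha0, padicValInt.self hp.one_lt] at h8
  omega

end LAN
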