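import Pool.Agent.H83.LAN.GAL

/-! # LAN, module REP -/

set_option autoImplicit false

namespace LAN

open GAL Finset

theorem rep : REPStmt := by
  intro p s w _ L _ _ z hC u hu
  classical
  have hq : NeZero (p ^ s) := ⟨pow_ne_zero _ (Fact.out : p.Prime).ne_zero⟩
  have hw : NeZero w := ⟨by have := hC.hw; omega⟩
  have hN : NeZero (p ^ s * w) := ⟨mul_ne_zero hq.ne hw.ne⟩
  have hz := hC.hz
  have := hC.cyc
  have hcop : Nat.Coprime (p ^ s) w := Nat.Coprime.pow_left s hC.cop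
  have hζ := IsCyclotomicExtension.zeta_spec (p ^ s * w) ℚ L
  -- roots of unity
  have hroot : ∀ y : L, y ^ (p ^ s * w) = 1 → ∃ (y1 : L) (x : ZMod (p ^ s)), y1 ^ w = 1 ∧
      y = y1 * Z z x := by
    intro y hy
    obtain ⟨i, hi1, hi2⟩ := Nat.chineseRemainder hcop 0 1
    obtain ⟨j, hj1, hj2⟩ := Nat.chineseRemainder hcop 1 0
    have h1 : i + j ≡ 1 [MOD p ^ s * w] := by
      rw [← Nat.modEq_and_modEq_iff_modEq_mul hcop]
      exact ⟨by simpa using hi1.add hj1, by simpa using hi2.add hj2⟩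
    have hi3 : p ^ s ∣ i := (Nat.modEq_zero_iff_dvd).1 hi1
    have hj3 : w ∣ j := (Nat.modEq_zero_iff_dvd).1 hj2
    have h2 : y = y ^ i * y ^ j := by
      rw [← pow_add, pow_eq_pow_mod _ hy, h1, ← pow_eq_pow_mod _ hy, pow_one]
    have h3 : (y ^ j) ^ (p ^ s) = 1 := by
      obtain ⟨j', rfl⟩ := hj3
      rw [← pow_mul, show w * j' * p ^ s = p ^ s * w * j' by ring, pow_mul, hy, one_pow]
    have h4 : (y ^ i) ^ w = 1 := by
      obtain ⟨i', rfl⟩ := hi3
      rw [← pow_mul, show p ^ s * i' * w = p ^ s * w * i' by ring, pow_mul, hy, one_pow]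
    obtain ⟨x, hx⟩ := exists_Z hz _ h3
    exact ⟨y ^ i, x, h4, by rw [← hx]; exact h2⟩
  -- the set of representable elements
  let R : Submodule ℤ L :=
    { carrier := {u | ∃ c : ZMod (p ^ s) → L,
        (∀ x, IsIntegral ℤ (c x) ∧ InM w (c x)) ∧ u = ∑ x, c x * Z z x}
      add_mem' := by
        rintro a b ⟨c, hc, rfl⟩ ⟨d, hd, rfl⟩
        refine ⟨fun x => c x + d x, fun x => ⟨(hc x).1.add (hd x).1, ?_⟩, ?_⟩
        · intro σ hσ
          rw [map_add, (hc x).2 σ hσ, (hd x).2 σ hσ]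
        · rw [← sum_add_distrib]
          exact sum_congr rfl fun x _ => by ring
      zero_mem' := ⟨fun _ => 0, fun x => ⟨isIntegral_zero, fun σ _ => map_zero _⟩, by simp⟩
      smul_mem' := by
        rintro m _ ⟨c, hc, rfl⟩
        refine ⟨fun x => m • c x, fun x => ⟨(hc x).1.smul m, ?_⟩, ?_⟩
        · intro σ hσ
          rw [map_zsmul, (hc x).2 σ hσ]
        · rw [smul_sum]
          exact sum_congr rfl fun x _ => by rw [smul_mul_assoc] }
  have hpow : ∀ n : ℕ, IsCyclotomicExtension.zeta (p ^ s * w) ℚ L ^ n ∈ R := by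
    intro n
    obtain ⟨y1, x0, h1, h2⟩ := hroot (IsCyclotomicExtension.zeta (p ^ s * w) ℚ L ^ n)
      (by rw [← pow_mul, mul_comm n, pow_mul, hζ.pow_eq_one, one_pow])
    refine ⟨fun x => if x = x0 then y1 else 0, fun x => ?_, ?_⟩
    · by_cases hx : x = x0
      · simp only [if_pos hx]
        exact ⟨IsIntegral.of_pow (NeZero.pos w) (by rw [h1]; exact isIntegral_one),
          fun σ hσ => hσ y1 h1⟩
      · simp only [if_neg hx]
        exact ⟨isIntegral_zero, fun σ _ => map_zero _⟩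
    · rw [h2]
      simp
  have hu2 : u ∈ Algebra.adjoin ℤ {IsCyclotomicExtension.zeta (p ^ s * w) ℚ L} := by
    have h1 := IsCyclotomicExtension.Rat.isIntegralClosure_adjoin_singleton hζ
    obtain ⟨v, hv⟩ := h1.isIntegral_iff.1 hu
    rw [← hv]
    exact v.2
  rw [Algebra.adjoin_singleton_eq_range_aeval] at hu2
  obtain ⟨P, hP⟩ := hu2
  have hu3 : u ∈ R := by
    rw [← hP]
    show Polynomial.aeval _ P ∈ R
    rw [Polynomial.aeval_eq_sum_range]
    exact Submodule.sum_mem _ fun n _ => Submodule.smul_mem _ _ (hpow n)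
  exact hu3

end LAN
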